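import Pool.Agent.Helper50.VD.St

open MeasureTheory Set Filter Topology
open scoped ENNReal

noncomputable section

namespace VD.M_E3

/-- one dimensional majorant -/
def f (t : ℝ) : ℝ := (Icc (-1:ℝ) 1).indicator (fun t => (Real.sqrt |t|)⁻¹) t

lemma f_nonneg (t : ℝ) : 0 ≤ f t := by
  unfold f
  exact indicator_nonneg (fun _ _ => by positivity) _

lemma f_neg (t : ℝ) : f (-t) = f t := by
  unfold f indicator
  have : (-t ∈ Icc (-1:ℝ) 1) ↔ (t ∈ Icc (-1:ℝ) 1) := by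
    simp only [mem_Icc]
    constructor <;> rintro ⟨h1, h2⟩ <;> constructor <;> linarith
  simp only [this, abs_neg]

lemma f_int : Integrable f := by
  unfold f
  rw [integrable_indicator_iff measurableSet_Icc]
  have h0 : IntervalIntegrable (fun t : ℝ => t ^ (-(1/2) : ℝ)) volume 0 1 :=
    intervalIntegral.intervalIntegrable_rpow' (by norm_num)
  have h1 : IntegrableOn (fun t : ℝ => (Real.sqrt |t|)⁻¹) (Ioc 0 1) := by
    rw [intervalIntegrable_iff_integrableOn_Ioc_of_le zero_le_one] at h0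
    refine h0.congr_fun (fun t ht => ?_) measurableSet_Ioc
    change t ^ (-(1/2) : ℝ) = (Real.sqrt |t|)⁻¹
    rw [abs_of_pos ht.1, Real.rpow_neg ht.1.le, Real.sqrt_eq_rpow]
  have h2 : IntegrableOn (fun t : ℝ => (Real.sqrt |t|)⁻¹) (Ico (-1) 0) := by
    have h3 : IntegrableOn (fun t : ℝ => (Real.sqrt |(-t)|)⁻¹) (Neg.neg ⁻¹' (Ioc 0 1)) :=
      (MeasurePreserving.integrableOn_comp_preimage (Measure.measurePreserving_neg
        (volume : Measure ℝ)) (MeasurableEquiv.neg ℝ).measurableEmbedding).2 h1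
    simp only [abs_neg] at h3
    have h4 : Neg.neg ⁻¹' (Ioc (0:ℝ) 1) = Ico (-1) 0 := by
      ext t
      simp only [mem_preimage, mem_Ioc, mem_Ico]
      constructor <;> rintro ⟨h1, h2⟩ <;> constructor <;> linarith
    rwa [h4] at h3
  have h3 : Icc (-1:ℝ) 1 = Ico (-1) 0 ∪ ({0} ∪ Ioc 0 1) := by
    ext t
    simp only [mem_union, mem_Icc, mem_Ico, mem_Ioc, mem_singleton_iff]
    constructor
    · rintro ⟨h1, h2⟩
      rcases lt_trichotomy t 0 with h | h | h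
      · exact Or.inl ⟨h1, h⟩
      · exact Or.inr (Or.inl h)
      · exact Or.inr (Or.inr ⟨h, h2⟩)
    · rintro (⟨h1, h2⟩ | h | ⟨h1, h2⟩)
      · exact ⟨h1, by linarith⟩
      · subst h; constructor <;> norm_num
      · exact ⟨by linarith, h2⟩
  rw [h3]
  refine h2.union (IntegrableOn.union ?_ h1)
  exact integrableOn_singleton (hx := by rw [Real.volume_singleton]; exact ENNReal.zero_lt_top)

/-- two dimensional majorant -/
def F (u : ℝ × ℝ) : ℝ := f u.1 * f u.2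

lemma F_int : Integrable F := f_int.mul_prod f_int

lemma F_nonneg (u : ℝ × ℝ) : 0 ≤ F u := mul_nonneg (f_nonneg _) (f_nonneg _)

lemma aux (a b : ℝ) (ha : a ≠ 0) (hb : b ≠ 0) (c : ℝ) (hc : c ^ 2 ≤ a ^ 2 + b ^ 2) :
    |c| / (a ^ 2 + b ^ 2) ≤ F (a, b) + 1 := by
  have hq : 0 < a ^ 2 + b ^ 2 := by positivity
  by_cases h : |a| ≤ 1 ∧ |b| ≤ 1
  · have h1 : F (a, b) = (Real.sqrt |a|)⁻¹ * (Real.sqrt |b|)⁻¹ := by
      have ha1 : a ∈ Icc (-1:ℝ) 1 := abs_le.1 h.1
      have hb1 : b ∈ Icc (-1:ℝ) 1 := abs_le.1 h.2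
      unfold F f
      rw [indicator_of_mem ha1, indicator_of_mem hb1]
    have ha' : 0 < |a| := abs_pos.2 ha
    have hb' : 0 < |b| := abs_pos.2 hb
    have h2 : |c| / (a ^ 2 + b ^ 2) ≤ (Real.sqrt |a|)⁻¹ * (Real.sqrt |b|)⁻¹ := by
      rw [← mul_inv, ← Real.sqrt_mul ha'.le, div_le_iff₀ hq, inv_mul_eq_div,
        le_div_iff₀ (Real.sqrt_pos.2 (mul_pos ha' hb'))]
      apply le_of_sq_le_sq₀ _ hq.le
      rw [mul_pow, Real.sq_sqrt (mul_pos ha' hb').le, sq_abs]
      have h3 : |a| * |b| ≤ a ^ 2 + b ^ 2 := by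
        have := sq_nonneg (|a| - |b|)
        have h4 := sq_abs a
        have h5 := sq_abs b
        nlinarith
      calc c ^ 2 * (|a| * |b|) ≤ (a ^ 2 + b ^ 2) * (a ^ 2 + b ^ 2) :=
            mul_le_mul hc h3 (mul_pos ha' hb').le hq.le
        _ = (a ^ 2 + b ^ 2) ^ 2 := by ring
    linarith
  · have h1 : 1 ≤ a ^ 2 + b ^ 2 := by
      by_contra hcon
      push Not at hcon
      apply h
      constructor
      · rw [← sq_le_one_iff_abs_le_one]
        nlinarith [sq_nonneg b]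
      · rw [← sq_le_one_iff_abs_le_one]
        nlinarith [sq_nonneg a]
    have h2 : |c| / (a ^ 2 + b ^ 2) ≤ 1 := by
      rw [div_le_one hq]
      apply abs_le_of_sq_le_sq _ hq.le
      nlinarith
    linarith [F_nonneg (a, b)]
where
  le_of_sq_le_sq₀ {x y : ℝ} (h : x ^ 2 ≤ y ^ 2) (hy : 0 ≤ y) : x ≤ y :=
    le_trans (le_abs_self x) (abs_le_of_sq_le_sq h hy)

lemma kBS_le (u : ℝ × ℝ) (h1 : u.1 ≠ 0) (h2 : u.2 ≠ 0) :
    ‖kBS u‖ ≤ 1 / (2 * Real.pi) * (F u + 1) := by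
  have hq : 0 < u.1 ^ 2 + u.2 ^ 2 := by positivity
  have hpi := Real.pi_pos
  unfold kBS
  rw [Prod.norm_mk, max_le_iff]
  have key : ∀ c : ℝ, c ^ 2 ≤ u.1 ^ 2 + u.2 ^ 2 →
      ‖c / (2 * Real.pi * (u.1 ^ 2 + u.2 ^ 2))‖ ≤ 1 / (2 * Real.pi) * (F u + 1) := by
    intro c hc
    have h3 := aux u.1 u.2 h1 h2 c hc
    rw [Real.norm_eq_abs, abs_div, abs_of_pos (mul_pos (mul_pos two_pos hpi) hq)]
    have h4 : |c| / (2 * Real.pi * (u.1 ^ 2 + u.2 ^ 2)) =
        1 / (2 * Real.pi) * (|c| / (u.1 ^ 2 + u.2 ^ 2)) := by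
      field_simp
    rw [h4]
    exact mul_le_mul_of_nonneg_left h3 (by positivity)
  exact ⟨key _ (by nlinarith [sq_nonneg u.1]), key _ (by nlinarith [sq_nonneg u.2])⟩

lemma ae_ne (a b : ℝ) : ∀ᵐ y : ℝ × ℝ, a - y.1 ≠ 0 ∧ b - y.2 ≠ 0 := by
  have h1 : ∀ c : ℝ, ∀ᵐ t : ℝ, c - t ≠ 0 := by
    intro c
    have : ∀ᵐ t : ℝ, t ≠ c := by
      rw [ae_iff]
      simp
    filter_upwards [this] with t ht h
    exact ht (sub_eq_zero.1 h).symm
  have h2 : ∀ᵐ y : ℝ × ℝ, a - y.1 ≠ 0 :=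
    (Measure.quasiMeasurePreserving_fst (μ := (volume : Measure ℝ))
      (ν := (volume : Measure ℝ))).ae (h1 a)
  have h3 : ∀ᵐ y : ℝ × ℝ, b - y.2 ≠ 0 :=
    (Measure.quasiMeasurePreserving_snd (μ := (volume : Measure ℝ))
      (ν := (volume : Measure ℝ))).ae (h1 b)
  filter_upwards [h2, h3] with y h4 h5
  exact ⟨h4, h5⟩

lemma kBS_meas : Measurable kBS := by
  unfold kBS
  fun_prop

lemma maj1 (x : ℝ × ℝ) :
    ∀ᵐ y : ℝ × ℝ, ‖kBS (x - y)‖ ≤ 1 / (2 * Real.pi) * (F (x - y) + 1) := by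
  filter_upwards [ae_ne x.1 x.2] with y hy
  exact kBS_le (x - y) hy.1 hy.2

lemma maj2 (x : ℝ × ℝ) :
    ∀ᵐ y : ℝ × ℝ, ‖kBS (x - (y.1, -y.2))‖ ≤
      1 / (2 * Real.pi) * (F ((x.1, -x.2) - y) + 1) := by
  filter_upwards [ae_ne x.1 (-x.2)] with y hy
  have h1 := kBS_le (x - (y.1, -y.2)) hy.1 (by
    intro h
    apply hy.2
    change x.2 - -y.2 = 0 at h
    linarith)
  have h2 : F (x - (y.1, -y.2)) = F ((x.1, -x.2) - y) := by
    unfold F
    change f (x.1 - y.1) * f (x.2 - -y.2) = f (x.1 - y.1) * f (-x.2 - y.2)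
    rw [← f_neg (x.2 - -y.2)]
    congr 2
    ring
  rwa [h2] at h1

lemma int_maj {A : Set (ℝ × ℝ)} (hA : volume A < ∞) (x : ℝ × ℝ) :
    IntegrableOn (fun y => 1 / (2 * Real.pi) * (F (x - y) + 1)) A := by
  have h1 : IntegrableOn (fun y => F (x - y)) A := (F_int.comp_sub_left x).integrableOn
  have h2 : IntegrableOn (fun _ : ℝ × ℝ => (1:ℝ)) A := integrableOn_const hA.ne
  exact (h1.add h2).const_mul _

lemma int1 {A : Set (ℝ × ℝ)} (hA : volume A < ∞) (x : ℝ × ℝ) :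
    IntegrableOn (fun y => kBS (x - y)) A := by
  refine Integrable.mono' (int_maj hA x) ?_ (ae_restrict_of_ae (maj1 x))
  exact (kBS_meas.comp (measurable_const.sub measurable_id)).aestronglyMeasurable

lemma int2 {A : Set (ℝ × ℝ)} (hA : volume A < ∞) (x : ℝ × ℝ) :
    IntegrableOn (fun y : ℝ × ℝ => kBS (x - (y.1, -y.2))) A := by
  refine Integrable.mono' (int_maj hA (x.1, -x.2)) ?_ (ae_restrict_of_ae (maj2 x))
  exact (kBS_meas.comp (measurable_const.sub
    (measurable_fst.prodMk measurable_snd.neg))).aestronglyMeasurable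

lemma int_le {A : Set (ℝ × ℝ)} (hA : volume A < ∞) (x : ℝ × ℝ) :
    ∫ y in A, 1 / (2 * Real.pi) * (F (x - y) + 1) ≤
      1 / (2 * Real.pi) * ((∫ u, F u) + (volume A).toReal) := by
  rw [integral_const_mul]
  refine mul_le_mul_of_nonneg_left ?_ (by positivity)
  have h1 : IntegrableOn (fun y => F (x - y)) A := (F_int.comp_sub_left x).integrableOn
  have h2 : IntegrableOn (fun _ : ℝ × ℝ => (1:ℝ)) A := integrableOn_const hA.ne
  rw [integral_add h1 h2]
  refine add_le_add ?_ ?_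
  · calc ∫ y in A, F (x - y) ≤ ∫ y, F (x - y) :=
        setIntegral_le_integral (F_int.comp_sub_left x) (Eventually.of_forall fun y => F_nonneg _)
      _ = ∫ u, F u := integral_sub_left_eq_self F volume x
  · rw [setIntegral_const]
    simp [Measure.real]

lemma near {A : Set (ℝ × ℝ)} (hA : volume A < ∞) (x : ℝ × ℝ) :
    ∫ y in A, ‖kap y x‖ ≤ 1 / Real.pi * ((∫ u, F u) + (volume A).toReal) := by
  have h1 := int1 hA x
  have h2 := int2 hA x
  have h3 : ∫ y in A, ‖kap y x‖ ≤ ∫ y in A, (1 / (2 * Real.pi) * (F (x - y) + 1) +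
      1 / (2 * Real.pi) * (F ((x.1, -x.2) - y) + 1)) := by
    refine integral_mono_ae ?_ ((int_maj hA x).add (int_maj hA (x.1, -x.2))) ?_
    · exact (h1.sub h2).norm
    · filter_upwards [ae_restrict_of_ae (maj1 x), ae_restrict_of_ae (maj2 x)] with y h4 h5
      unfold kap
      exact le_trans (norm_sub_le _ _) (add_le_add h4 h5)
  rw [integral_add (int_maj hA x) (int_maj hA (x.1, -x.2))] at h3
  have h4 := int_le hA x
  have h5 := int_le hA (x.1, -x.2)
  have h6 : 1 / Real.pi * ((∫ u, F u) + (volume A).toReal) =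
      1 / (2 * Real.pi) * ((∫ u, F u) + (volume A).toReal) +
      1 / (2 * Real.pi) * ((∫ u, F u) + (volume A).toReal) := by
    have := Real.pi_pos
    field_simp
    ring
  rw [h6]
  linarith

lemma far (R : ℝ) (hR : 0 < R) (x y : ℝ × ℝ) (hy : y ∈ Box R) (hx : 16 * R ^ 2 ≤ x.1 ^ 2 + x.2 ^ 2) :
    ‖kap y x‖ ≤ 4 * R / (Real.pi * (x.1 ^ 2 + x.2 ^ 2)) := by
  have hpi := Real.pi_pos
  obtain ⟨hy1, hy2, hy3⟩ := hy
  have hy1' : y.1 ^ 2 ≤ R ^ 2 := by
    rw [← sq_abs]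
    exact pow_le_pow_left₀ (abs_nonneg _) hy1 2
  have hy2' : y.2 ^ 2 ≤ R ^ 2 := pow_le_pow_left₀ hy2.le hy3 2
  have hX : 0 < x.1 ^ 2 + x.2 ^ 2 := by nlinarith [sq_pos_of_pos hR]
  set X := x.1 ^ 2 + x.2 ^ 2 with hXdef
  set a := x.1 - y.1 with ha
  set b := x.2 - y.2 with hb
  set b' := x.2 + y.2 with hb'
  set qa := a ^ 2 + b ^ 2 with hqa
  set qb := a ^ 2 + b' ^ 2 with hqb
  have h1 : X / 4 ≤ qa := by
    rw [hqa, hXdef, ha, hb]
    nlinarith [sq_nonneg (x.1 - 2 * y.1), sq_nonneg (x.2 - 2 * y.2)]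
  have h2 : X / 4 ≤ qb := by
    rw [hqb, hXdef, ha, hb']
    nlinarith [sq_nonneg (x.1 - 2 * y.1), sq_nonneg (x.2 + 2 * y.2)]
  have hqa0 : 0 < qa := by linarith
  have hqb0 : 0 < qb := by linarith
  -- the difference of the inversions
  have key : ∀ c d : ℝ, (c / qa - d / qb) ^ 2 ≤ (2 * y.2) ^ 2 / (qa * qb) →
      |c / (2 * Real.pi * qa) - d / (2 * Real.pi * qb)| ≤ 4 * R / (Real.pi * X) := by
    intro c d h
    have h3 : c / (2 * Real.pi * qa) - d / (2 * Real.pi * qb) =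
        1 / (2 * Real.pi) * (c / qa - d / qb) := by
      field_simp
    rw [h3, abs_mul, abs_of_pos (by positivity : 0 < 1 / (2 * Real.pi))]
    have h4 : |c / qa - d / qb| ≤ 8 * R / X := by
      apply abs_le_of_sq_le_sq _ (by positivity)
      refine le_trans h ?_
      rw [div_pow, div_le_div_iff₀ (mul_pos hqa0 hqb0) (by positivity)]
      have h5 : X ^ 2 / 16 ≤ qa * qb := by
        have : X / 4 * (X / 4) ≤ qa * qb := mul_le_mul h1 h2 (by positivity) hqa0.le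
        nlinarith
      have h6 : (2 * y.2) ^ 2 ≤ 4 * R ^ 2 := by nlinarith
      calc (2 * y.2) ^ 2 * X ^ 2 ≤ 4 * R ^ 2 * X ^ 2 :=
            mul_le_mul_of_nonneg_right h6 (sq_nonneg _)
        _ = (8 * R) ^ 2 * (X ^ 2 / 16) := by ring
        _ ≤ (8 * R) ^ 2 * (qa * qb) := mul_le_mul_of_nonneg_left h5 (sq_nonneg _)
    calc 1 / (2 * Real.pi) * |c / qa - d / qb| ≤ 1 / (2 * Real.pi) * (8 * R / X) :=
          mul_le_mul_of_nonneg_left h4 (by positivity)
      _ = 4 * R / (Real.pi * X) := by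
          field_simp
          ring
  have id1 : (a / qa - a / qb) ^ 2 + (b / qa - b' / qb) ^ 2 = (2 * y.2) ^ 2 / (qa * qb) := by
    have e1 : (2 * y.2) ^ 2 = (b - b') ^ 2 := by
      rw [hb, hb']
      ring
    rw [e1]
    have e2 : (a / qa - a / qb) ^ 2 + (b / qa - b' / qb) ^ 2 =
        (a ^ 2 + b ^ 2) / qa ^ 2 + (a ^ 2 + b' ^ 2) / qb ^ 2 - 2 * (a ^ 2 + b * b') / (qa * qb) := by
      field_simp
      ring
    rw [e2, ← hqa, ← hqb]
    have e3 : qa / qa ^ 2 = qb / (qa * qb) := by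
      field_simp
    have e4 : qb / qb ^ 2 = qa / (qa * qb) := by
      field_simp
    rw [e3, e4, ← add_div, ← sub_div]
    congr 1
    rw [hqa, hqb]
    ring
  have hk : kap y x = (-b / (2 * Real.pi * qa) - -b' / (2 * Real.pi * qb),
      a / (2 * Real.pi * qa) - a / (2 * Real.pi * qb)) := by
    unfold kap kBS
    have e1 : (x - y).1 = a := rfl
    have e2 : (x - y).2 = b := rfl
    have e3 : (x - (y.1, -y.2)).1 = a := rfl
    have e4 : (x - (y.1, -y.2)).2 = b' := by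
      change x.2 - -y.2 = x.2 + y.2
      ring
    rw [e1, e2, e3, e4]
    rfl
  rw [hk, Prod.norm_mk, max_le_iff, Real.norm_eq_abs, Real.norm_eq_abs]
  constructor
  · apply key
    have e : (-b / qa - -b' / qb) ^ 2 = (b / qa - b' / qb) ^ 2 := by ring
    rw [e]
    linarith [sq_nonneg (a / qa - a / qb)]
  · apply key
    linarith [sq_nonneg (b / qa - b' / qb)]

end VD.M_E3

namespace VD

open M_E3

/-- bounds and integrability of the kernel kap -/
theorem mE3 (hK0 : StK0) : StE3 := by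
  refine ⟨?_, ?_⟩
  · intro A hA hAs hAv x
    exact ⟨(int1 hAv x).sub (int2 hAv x), int1 hAv x, int2 hAv x⟩
  · intro R hR
    have hpi := Real.pi_pos
    set I := ∫ u, F u with hI
    have hI0 : 0 ≤ I := integral_nonneg F_nonneg
    set C1 := 1 / Real.pi * (I + 2 * R * R) with hC1
    have hC10 : 0 ≤ C1 := by positivity
    refine ⟨C1 * (1 + 16 * R ^ 2) + (2 * R * R) * (4 * R / Real.pi) * (1 + 1 / (16 * R ^ 2)), ?_⟩
    intro A hA hAs x
    have hAv : volume A < ∞ := vol_lt_top hAs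
    have hvol : (volume A).toReal ≤ 2 * R * R := by
      have h1 := measure_mono (μ := volume) hAs
      rw [volume_Box R hR.le] at h1
      have h2 := ENNReal.toReal_mono ENNReal.ofReal_ne_top h1
      rwa [ENNReal.toReal_ofReal (by positivity)] at h2
    have hX0 : 0 ≤ x.1 ^ 2 + x.2 ^ 2 := by positivity
    have hX1 : 0 < 1 + x.1 ^ 2 + x.2 ^ 2 := by positivity
    rw [le_div_iff₀ hX1]
    by_cases hx : 16 * R ^ 2 ≤ x.1 ^ 2 + x.2 ^ 2
    · have hXp : 0 < x.1 ^ 2 + x.2 ^ 2 := by nlinarith [sq_pos_of_pos hR]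
      have h1 : ∫ y in A, ‖kap y x‖ ≤ 4 * R / (Real.pi * (x.1 ^ 2 + x.2 ^ 2)) * (2 * R * R) := by
        have h2 : ∫ y in A, ‖kap y x‖ ≤ ∫ y in A, 4 * R / (Real.pi * (x.1 ^ 2 + x.2 ^ 2)) := by
          refine setIntegral_mono_on ((int1 hAv x).sub (int2 hAv x)).norm
            (integrableOn_const hAv.ne) hA fun y hy => ?_
          exact far R hR x y (hAs hy) hx
        rw [setIntegral_const] at h2
        refine le_trans h2 ?_
        rw [smul_eq_mul, mul_comm]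
        exact mul_le_mul_of_nonneg_left hvol (by positivity)
      have h2 : 1 + x.1 ^ 2 + x.2 ^ 2 ≤ (x.1 ^ 2 + x.2 ^ 2) * (1 + 1 / (16 * R ^ 2)) := by
        have h3 : 1 ≤ (x.1 ^ 2 + x.2 ^ 2) * (1 / (16 * R ^ 2)) := by
          rw [mul_one_div, le_div_iff₀ (by positivity), one_mul]
          exact hx
        nlinarith
      calc (∫ y in A, ‖kap y x‖) * (1 + x.1 ^ 2 + x.2 ^ 2)
          ≤ 4 * R / (Real.pi * (x.1 ^ 2 + x.2 ^ 2)) * (2 * R * R) *
              ((x.1 ^ 2 + x.2 ^ 2) * (1 + 1 / (16 * R ^ 2))) :=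
            mul_le_mul h1 h2 hX1.le (by positivity)
        _ = (2 * R * R) * (4 * R / Real.pi) * (1 + 1 / (16 * R ^ 2)) := by
            field_simp
        _ ≤ _ := by
            have : 0 ≤ C1 * (1 + 16 * R ^ 2) := by positivity
            linarith
    · push Not at hx
      have h1 := near hAv x
      have h2 : ∫ y in A, ‖kap y x‖ ≤ C1 := by
        refine le_trans h1 ?_
        rw [hC1]
        exact mul_le_mul_of_nonneg_left (by linarith) (by positivity)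
      have h3 : (∫ y in A, ‖kap y x‖) * (1 + x.1 ^ 2 + x.2 ^ 2) ≤ C1 * (1 + 16 * R ^ 2) :=
        mul_le_mul h2 (by linarith) hX1.le hC10
      have h4 : 0 ≤ (2 * R * R) * (4 * R / Real.pi) * (1 + 1 / (16 * R ^ 2)) := by positivity
      linarith

end VD
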