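import Pool.Agent.Helper50.VD.St

open MeasureTheory Set Filter Topology
open scoped ENNReal

noncomputable section

namespace VD.M_K9

lemma G_meas : Measurable (fun p : (ℝ × ℝ) × (ℝ × ℝ) => G p.1 p.2) := by
  unfold G
  exact (Real.measurable_log.comp (by fun_prop)).div_const _

lemma G_symm (z y : ℝ × ℝ) : G z y = G y z := by
  unfold G
  rw [show (z.1 - y.1) ^ 2 + (z.2 + y.2) ^ 2 = (y.1 - z.1) ^ 2 + (y.2 + z.2) ^ 2 by ring,
    show (z.1 - y.1) ^ 2 + (z.2 - y.2) ^ 2 = (y.1 - z.1) ^ 2 + (y.2 - z.2) ^ 2 by ring]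

lemma G_eq {z : ℝ × ℝ} (hz : z ∈ Om) (y : ℝ × ℝ) : G z y = z.2 * N z y := by
  have hz' : (0:ℝ) < z.2 := hz
  unfold N
  rw [if_neg hz'.ne', mul_div_cancel₀ _ hz'.ne']

lemma G_nonneg (hK1 : StK1) {z y : ℝ × ℝ} (hz : z ∈ Om) (hy : y ∈ Om) : 0 ≤ G z y := by
  have hz' : (0:ℝ) < z.2 := hz
  by_cases h : z = y
  · subst h
    unfold G
    rw [sub_self, sub_self, show (0:ℝ) ^ 2 + 0 ^ 2 = 0 by norm_num, div_zero, Real.log_zero,
      zero_div]
  · rw [G_eq hz]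
    exact mul_nonneg hz'.le (hK1 z y hz'.le hy h).1.le

lemma snd_int {A : Set (ℝ × ℝ)} (hA : MeasurableSet A) (hs : A ⊆ Om) (hn : nu A < ∞) :
    IntegrableOn (fun z : ℝ × ℝ => z.2) A := by
  refine ⟨measurable_snd.aestronglyMeasurable, ?_⟩
  rw [HasFiniteIntegral]
  have h1 : ∫⁻ z in A, ‖z.2‖ₑ = ∫⁻ z in A, ENNReal.ofReal z.2 := by
    refine setLIntegral_congr_fun hA fun z hz => ?_
    have hz' : (0:ℝ) < z.2 := hs hz
    change ‖z.2‖ₑ = ENNReal.ofReal z.2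
    rw [← ofReal_norm, Real.norm_of_nonneg hz'.le]
  rw [h1, ← nu_apply hA]
  exact hn

lemma phi_int (hK0 : StK0) (hK2 : StK2) {A C : Set (ℝ × ℝ)} (hA : MeasurableSet A)
    (hC : MeasurableSet C) (hAs : A ⊆ Om) (hCs : C ⊆ Om) (hCv : volume C < ∞) (hn : nu A < ∞) :
    IntegrableOn (fun z : ℝ × ℝ => z.2 * phi C z) A := by
  have h1 := (snd_int hA hAs hn).const_mul (4 * Real.sqrt (volume C).toReal)
  refine Integrable.mono' h1 ?_ ?_
  · exact (measurable_snd.mul (hK0.2.1 C hC)).aestronglyMeasurable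
  · filter_upwards [ae_restrict_mem hA] with z hz
    have hz' : (0:ℝ) < z.2 := hAs hz
    obtain ⟨_, h2, h3, _⟩ := hK2 C hC hCs hCv z hz'.le
    rw [Real.norm_of_nonneg (mul_nonneg hz'.le h2), mul_comm]
    exact mul_le_mul_of_nonneg_right h3 hz'.le

lemma BG_nonneg (hK2 : StK2) {A C : Set (ℝ × ℝ)} (hA : MeasurableSet A)
    (hC : MeasurableSet C) (hAs : A ⊆ Om) (hCs : C ⊆ Om) (hCv : volume C < ∞) :
    0 ≤ BG A C := by
  unfold BG
  refine setIntegral_nonneg hA fun z hz => ?_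
  have hz' : (0:ℝ) < z.2 := hAs hz
  exact mul_nonneg hz'.le (hK2 C hC hCs hCv z hz'.le).2.1

lemma BG_lint (hK0 : StK0) (hK1 : StK1) (hK2 : StK2) {A C : Set (ℝ × ℝ)} (hA : MeasurableSet A)
    (hC : MeasurableSet C) (hAs : A ⊆ Om) (hCs : C ⊆ Om) (hCv : volume C < ∞) (hn : nu A < ∞) :
    ENNReal.ofReal (BG A C) = ∫⁻ z in A, ∫⁻ y in C, ENNReal.ofReal (G z y) := by
  unfold BG
  rw [ofReal_integral_eq_lintegral_ofReal (phi_int hK0 hK2 hA hC hAs hCs hCv hn)]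
  · refine setLIntegral_congr_fun hA fun z hz => ?_
    have hz' : (0:ℝ) < z.2 := hAs hz
    obtain ⟨h1, _, _, _⟩ := hK2 C hC hCs hCv z hz'.le
    change ENNReal.ofReal (z.2 * phi C z) = ∫⁻ y in C, ENNReal.ofReal (G z y)
    have h2 : z.2 * phi C z = ∫ y in C, G z y := by
      unfold phi
      rw [← integral_const_mul]
      refine integral_congr_ae (Filter.Eventually.of_forall fun y => ?_)
      exact (G_eq (hAs hz) y).symm
    rw [h2, ofReal_integral_eq_lintegral_ofReal]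
    · have h3 : IntegrableOn (fun y => z.2 * N z y) C := h1.const_mul _
      refine h3.congr (Filter.Eventually.of_forall fun y => ?_)
      exact (G_eq (hAs hz) y).symm
    · filter_upwards [ae_restrict_mem hC] with y hy
      exact G_nonneg hK1 (hAs hz) (hCs hy)
  · filter_upwards [ae_restrict_mem hA] with z hz
    have hz' : (0:ℝ) < z.2 := hAs hz
    exact mul_nonneg hz'.le (hK2 C hC hCs hCv z hz'.le).2.1

lemma prod_lint {A C : Set (ℝ × ℝ)} :
    ∫⁻ p in A ×ˢ C, ENNReal.ofReal (G p.1 p.2) =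
      ∫⁻ z in A, ∫⁻ y in C, ENNReal.ofReal (G z y) := by
  rw [Measure.volume_eq_prod, ← Measure.prod_restrict, lintegral_prod]
  exact (ENNReal.measurable_ofReal.comp G_meas).aemeasurable

lemma prod_int (hK0 : StK0) (hK1 : StK1) (hK2 : StK2) {A C : Set (ℝ × ℝ)} (hA : MeasurableSet A)
    (hC : MeasurableSet C) (hAs : A ⊆ Om) (hCs : C ⊆ Om) (hCv : volume C < ∞) (hn : nu A < ∞) :
    IntegrableOn (fun p : (ℝ × ℝ) × (ℝ × ℝ) => G p.1 p.2) (A ×ˢ C) := by
  refine ⟨G_meas.aestronglyMeasurable, ?_⟩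
  rw [HasFiniteIntegral]
  have h1 : ∫⁻ p in A ×ˢ C, ‖G p.1 p.2‖ₑ = ∫⁻ p in A ×ˢ C, ENNReal.ofReal (G p.1 p.2) := by
    refine setLIntegral_congr_fun (hA.prod hC) fun p hp => ?_
    change ‖G p.1 p.2‖ₑ = ENNReal.ofReal (G p.1 p.2)
    rw [← ofReal_norm, Real.norm_of_nonneg (G_nonneg hK1 (hAs hp.1) (hCs hp.2))]
  rw [h1, prod_lint, ← BG_lint hK0 hK1 hK2 hA hC hAs hCs hCv hn]
  exact ENNReal.ofReal_lt_top

lemma prod_BG (hK0 : StK0) (hK1 : StK1) (hK2 : StK2) {A C : Set (ℝ × ℝ)} (hA : MeasurableSet A)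
    (hC : MeasurableSet C) (hAs : A ⊆ Om) (hCs : C ⊆ Om) (hCv : volume C < ∞) (hn : nu A < ∞) :
    BG A C = ∫ p in A ×ˢ C, G p.1 p.2 := by
  have h0 : 0 ≤ ∫ p in A ×ˢ C, G p.1 p.2 :=
    setIntegral_nonneg (hA.prod hC) fun p hp => G_nonneg hK1 (hAs hp.1) (hCs hp.2)
  rw [← ENNReal.toReal_ofReal (BG_nonneg hK2 hA hC hAs hCs hCv), ← ENNReal.toReal_ofReal h0]
  congr 1
  rw [BG_lint hK0 hK1 hK2 hA hC hAs hCs hCv hn,
    ofReal_integral_eq_lintegral_ofReal (prod_int hK0 hK1 hK2 hA hC hAs hCs hCv hn), prod_lint]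
  filter_upwards [ae_restrict_mem (hA.prod hC)] with p hp
  exact G_nonneg hK1 (hAs hp.1) (hCs hp.2)

end VD.M_K9

namespace VD

open M_K9

/-- the bilinear form BG: Fubini, symmetry, monotone limit -/
theorem mK9 (hK0 : StK0) (hK1 : StK1) (hK2 : StK2) : StK9 := by
  refine ⟨?_, ?_⟩
  · intro A C hA hC hAs hCs hAv hCv hAn hCn
    refine ⟨phi_int hK0 hK2 hA hC hAs hCs hCv hAn, ?_, BG_nonneg hK2 hA hC hAs hCs hCv,
      BG_lint hK0 hK1 hK2 hA hC hAs hCs hCv hAn⟩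
    rw [← ENNReal.toReal_ofReal (BG_nonneg hK2 hA hC hAs hCs hCv),
      ← ENNReal.toReal_ofReal (BG_nonneg hK2 hC hA hCs hAs hAv)]
    congr 1
    rw [BG_lint hK0 hK1 hK2 hA hC hAs hCs hCv hAn, BG_lint hK0 hK1 hK2 hC hA hCs hAs hAv hCn,
      lintegral_lintegral_swap]
    · refine setLIntegral_congr_fun hC fun y _ => ?_
      refine setLIntegral_congr_fun hA fun z _ => ?_
      change ENNReal.ofReal (G z y) = ENNReal.ofReal (G y z)
      rw [G_symm]
    · exact (ENNReal.measurable_ofReal.comp G_meas).aemeasurable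
  · intro A hA hAs hAv hAn
    have hmeas : ∀ R : ℝ, MeasurableSet (A ∩ Box R) := fun R => hA.inter (measurableSet_Box R)
    have h1 : ∀ R : ℝ, BG (A ∩ Box R) (A ∩ Box R) =
        ∫ p in (A ∩ Box R) ×ˢ (A ∩ Box R), G p.1 p.2 := fun R =>
      prod_BG hK0 hK1 hK2 (hmeas R) (hmeas R) (inter_subset_left.trans hAs)
        (inter_subset_left.trans hAs) (lt_of_le_of_lt (measure_mono inter_subset_left) hAv)
        (lt_of_le_of_lt (measure_mono inter_subset_left) hAn)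
    have h2 : (⋃ R : ℝ, (A ∩ Box R) ×ˢ (A ∩ Box R)) = A ×ˢ A := by
      ext p
      simp only [mem_iUnion, mem_prod, mem_inter_iff]
      constructor
      · rintro ⟨R, ⟨h3, _⟩, ⟨h4, _⟩⟩
        exact ⟨h3, h4⟩
      · rintro ⟨h3, h4⟩
        have h5 : (0:ℝ) < p.1.2 := hAs h3
        have h6 : (0:ℝ) < p.2.2 := hAs h4
        refine ⟨max (max |p.1.1| p.1.2) (max |p.2.1| p.2.2), ⟨h3, ?_, h5, ?_⟩, ⟨h4, ?_, h6, ?_⟩⟩
        · exact le_trans (le_max_left _ _) (le_max_left _ _)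
        · exact le_trans (le_max_right _ _) (le_max_left _ _)
        · exact le_trans (le_max_left _ _) (le_max_right _ _)
        · exact le_trans (le_max_right _ _) (le_max_right _ _)
    have h3 := tendsto_setIntegral_of_monotone (μ := (volume : Measure ((ℝ × ℝ) × (ℝ × ℝ))))
      (f := fun p => G p.1 p.2) (s := fun R : ℝ => (A ∩ Box R) ×ˢ (A ∩ Box R))
      (fun R => (hmeas R).prod (hmeas R)) (fun R R' h => by
        have := inter_subset_inter_right A (Box_mono h)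
        exact prod_mono this this) (by
        rw [h2]
        exact prod_int hK0 hK1 hK2 hA hA hAs hAs hAv hAn)
    rw [h2, ← prod_BG hK0 hK1 hK2 hA hA hAs hAs hAv hAn] at h3
    refine h3.congr fun R => ?_
    rw [h1 R]

end VD
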