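import Pool.Agent.Helper50.VD.St

open MeasureTheory Set Filter Topology
open scoped ENNReal symmDiff

noncomputable section

namespace VD.M_M4

/-- the coordinate flip -/
def flip : E3 ≃ₗᵢ[ℝ] E3 :=
  LinearIsometryEquiv.piLpCongrRight 2 (fun i : Fin 3 =>
    if i = 0 then LinearIsometryEquiv.neg ℝ else LinearIsometryEquiv.refl ℝ ℝ)

lemma flip_apply (x : E3) (i : Fin 3) : flip x i = if i = 0 then - x i else x i := by
  unfold flip
  rw [LinearIsometryEquiv.piLpCongrRight_apply]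
  by_cases h : i = 0
  · simp [h]
  · simp [h]

lemma rf_eq (l : ℝ) (X : ℝ × E3) : rf l X = (X.1, flip X.2 + (2 * l) • e0) := by
  unfold rf
  refine Prod.ext rfl ?_
  refine PiLp.ext fun i => ?_
  change (X.2 + (2 * (l - X.2 0)) • e0) i = (flip X.2 + (2 * l) • e0) i
  rw [PiLp.add_apply, PiLp.add_apply, PiLp.smul_apply, PiLp.smul_apply, flip_apply]
  unfold e0
  rw [PiLp.single_apply]
  by_cases h : i = 0
  · subst h
    simp
    ring
  · simp [h]

lemma rf_mp (l : ℝ) : MeasurePreserving (rf l) := by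
  have h1 : MeasurePreserving (fun x : E3 => flip x + (2 * l) • e0) :=
    (measurePreserving_add_right volume ((2 * l) • e0)).comp flip.measurePreserving
  have h2 := (MeasurePreserving.id (volume : Measure ℝ)).prod h1
  have h3 : rf l = Prod.map id (fun x : E3 => flip x + (2 * l) • e0) := by
    funext X
    exact rf_eq l X
  rw [h3]
  exact h2

lemma rf_cont : Continuous (fun p : ℝ × (ℝ × E3) => rf p.1 p.2) := by
  have h : (fun p : ℝ × (ℝ × E3) => rf p.1 p.2) =
      fun p => (p.2.1, flip p.2.2 + (2 * p.1) • e0) := by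
    funext p
    exact rf_eq p.1 p.2
  rw [h]
  have := flip.continuous
  fun_prop

/-- the family of reflections as continuous maps -/
def rfC : C(ℝ, C(ℝ × E3, ℝ × E3)) :=
  ContinuousMap.curry ⟨fun p : ℝ × (ℝ × E3) => rf p.1 p.2, rf_cont⟩

lemma rfC_apply (l : ℝ) : (rfC l : ℝ × E3 → ℝ × E3) = rf l := rfl

lemma rad_meas : Measurable rad := by
  unfold rad
  fun_prop

lemma hyper_null (l : ℝ) : volume {X : ℝ × E3 | X.2 0 = l} = 0 := by
  have h1 : volume {x : E3 | x 0 = l} = 0 := by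
    have h2 := (PiLp.volume_preserving_ofLp (Fin 3)).measure_preimage
      (s := {f : Fin 3 → ℝ | f 0 = l}) (measurableSet_eq_fun (measurable_pi_apply 0)
        measurable_const).nullMeasurableSet
    have h3 : volume {f : Fin 3 → ℝ | f 0 = l} = 0 := by
      rw [volume_pi]
      exact Measure.pi_hyperplane (fun _ : Fin 3 => (volume : Measure ℝ)) (0 : Fin 3) l
    rw [h3] at h2
    exact h2
  have h2 : {X : ℝ × E3 | X.2 0 = l} = univ ×ˢ {x : E3 | x 0 = l} := by
    ext X
    simp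
  rw [h2, Measure.volume_eq_prod, Measure.prod_prod, h1, mul_zero]

lemma abs_le_norm (x : E3) : |x 0| ≤ ‖x‖ := by
  have := PiLp.norm_apply_le x 0
  rwa [Real.norm_eq_abs] at this

lemma B_fin {A : Set (ℝ × ℝ)} {n : ℝ} (hA : A ⊆ Box n) : volume (rad ⁻¹' A) < ∞ := by
  have h1 : rad ⁻¹' A ⊆ Icc (-n) n ×ˢ Metric.closedBall (0 : E3) n := by
    intro X hX
    obtain ⟨h2, _, h3⟩ := hA hX
    refine ⟨abs_le.1 h2, ?_⟩
    rw [mem_closedBall_zero_iff]
    exact h3
  refine lt_of_le_of_lt (measure_mono h1) ?_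
  exact (isCompact_Icc.prod (isCompact_closedBall (0 : E3) n)).measure_lt_top

/-- the part beyond the plane -/
def S (A : Set (ℝ × ℝ)) (l : ℝ) : Set (ℝ × E3) := {X | X ∈ rad ⁻¹' A ∧ l < X.2 0}

lemma S_meas {A : Set (ℝ × ℝ)} (hA : MeasurableSet A) (l : ℝ) : MeasurableSet (S A l) := by
  have h1 : MeasurableSet {X : ℝ × E3 | l < X.2 0} := by
    refine measurableSet_lt measurable_const ?_
    fun_prop
  exact (rad_meas hA).inter h1

lemma D_meas {A : Set (ℝ × ℝ)} (hA : MeasurableSet A) (l : ℝ) : MeasurableSet (Dset A l) := by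
  have h1 : Dset A l = S A l ∩ (rf l ⁻¹' (rad ⁻¹' A))ᶜ := by
    ext X
    constructor
    · rintro ⟨h1, h2, h3⟩
      exact ⟨⟨h2, h1⟩, h3⟩
    · rintro ⟨⟨h1, h2⟩, h3⟩
      exact ⟨h2, h1, h3⟩
  rw [h1]
  exact (S_meas hA l).inter ((rf_mp l).measurable (rad_meas hA)).compl

lemma S_tend {A : Set (ℝ × ℝ)} {n : ℝ} (hA : MeasurableSet A) (hAn : A ⊆ Box n) (l₀ : ℝ) :
    Tendsto (fun l => volume (S A l ∆ S A l₀)) (𝓝 l₀) (𝓝 0) := by
  have h1 : ∀ l, volume (S A l ∆ S A l₀) =
      ∫⁻ X in rad ⁻¹' A, (S A l ∆ S A l₀).indicator (fun _ => (1:ℝ≥0∞)) X := by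
    intro l
    rw [← lintegral_indicator (rad_meas hA), lintegral_congr (g := (S A l ∆ S A l₀).indicator
      (fun _ => (1:ℝ≥0∞))), lintegral_indicator ((S_meas hA l).symmDiff (S_meas hA l₀)),
      setLIntegral_const, one_mul]
    intro X
    by_cases h : X ∈ rad ⁻¹' A
    · rw [indicator_of_mem h]
    · rw [indicator_of_notMem h, indicator_of_notMem]
      rintro (⟨h2, _⟩ | ⟨h2, _⟩)
      · exact h h2.1
      · exact h h2.1
  simp only [h1]
  have h2 := tendsto_lintegral_filter_of_dominated_convergence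
    (μ := volume.restrict (rad ⁻¹' A)) (l := 𝓝 l₀)
    (F := fun l => (S A l ∆ S A l₀).indicator (fun _ => (1:ℝ≥0∞))) (f := fun _ => 0)
    (fun _ => 1) (Eventually.of_forall fun l =>
      measurable_const.indicator ((S_meas hA l).symmDiff (S_meas hA l₀)))
    (Eventually.of_forall fun l => Eventually.of_forall fun X => by
      exact indicator_le_self' (fun _ _ => zero_le) X)
    (by
      rw [lintegral_const, one_mul, Measure.restrict_apply_univ]
      exact (B_fin hAn).ne)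
    (by
      have h3 : ∀ᵐ X : ℝ × E3, X.2 0 ≠ l₀ := by
        rw [ae_iff]
        simpa using hyper_null l₀
      filter_upwards [ae_restrict_of_ae h3] with X hX
      have h4 : ∀ᶠ l in 𝓝 l₀, X ∉ S A l ∆ S A l₀ := by
        rcases lt_or_gt_of_ne hX with h | h
        · filter_upwards [lt_mem_nhds h] with l hl
          rintro (⟨h5, _⟩ | ⟨h5, _⟩)
          · exact absurd h5.2 (not_lt.2 hl.le)
          · exact absurd h5.2 (not_lt.2 h.le)
        · filter_upwards [gt_mem_nhds h] with l hl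
          rintro (⟨h5, h6⟩ | ⟨h5, h6⟩)
          · exact h6 ⟨h5.1, h⟩
          · exact h6 ⟨h5.1, hl⟩
      refine tendsto_const_nhds.congr' ?_
      filter_upwards [h4] with l hl
      rw [indicator_of_notMem hl])
  rw [lintegral_zero] at h2
  exact h2

lemma D_sub (A : Set (ℝ × ℝ)) (l l₀ : ℝ) : Dset A l ∆ Dset A l₀ ⊆
    (S A l ∆ S A l₀) ∪ ((rf l ⁻¹' (rad ⁻¹' A)) ∆ (rf l₀ ⁻¹' (rad ⁻¹' A))) := by
  intro X hX
  by_cases h1 : X ∈ S A l
  · by_cases h2 : X ∈ S A l₀
    · right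
      rcases hX with ⟨⟨_, _, h3⟩, h4⟩ | ⟨⟨_, _, h3⟩, h4⟩
      · right
        refine ⟨?_, h3⟩
        by_contra h5
        exact h4 ⟨h2.2, h2.1, h5⟩
      · left
        refine ⟨?_, h3⟩
        by_contra h5
        exact h4 ⟨h1.2, h1.1, h5⟩
    · exact Or.inl (Or.inl ⟨h1, h2⟩)
  · by_cases h2 : X ∈ S A l₀
    · exact Or.inl (Or.inr ⟨h2, h1⟩)
    · exfalso
      rcases hX with ⟨⟨h3, h4, _⟩, _⟩ | ⟨⟨h3, h4, _⟩, _⟩
      · exact h1 ⟨h4, h3⟩
      · exact h2 ⟨h4, h3⟩

lemma D_fin {A : Set (ℝ × ℝ)} {n : ℝ} (hAn : A ⊆ Box n) (l : ℝ) : volume (Dset A l) < ∞ :=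
  lt_of_le_of_lt (measure_mono fun _ hX => hX.2.1) (B_fin hAn)

end VD.M_M4

namespace VD

open M_M4

/-- continuity of l -> volume (Dset A l) (L1 continuity of translations) -/
theorem mM4 (hM0 : StM0) : StM4 := by
  intro A n hA hAn
  refine ⟨?_, D_fin hAn, ?_⟩
  · rw [continuous_iff_continuousAt]
    intro l₀
    have h1 : Tendsto (fun l => volume ((rf l ⁻¹' (rad ⁻¹' A)) ∆ (rf l₀ ⁻¹' (rad ⁻¹' A))))
        (𝓝 l₀) (𝓝 0) :=
      tendsto_measure_symmDiff_preimage_nhds_zero (f := fun l => rfC l) (g := rfC l₀)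
        (rfC.continuous.tendsto l₀) (Eventually.of_forall fun l => rf_mp l) (rf_mp l₀)
        (rad_meas hA).nullMeasurableSet (B_fin hAn).ne
    have h2 := (S_tend hA hAn l₀).add h1
    rw [add_zero] at h2
    have h3 : Tendsto (fun l => volume (Dset A l ∆ Dset A l₀)) (𝓝 l₀) (𝓝 0) := by
      refine tendsto_of_tendsto_of_tendsto_of_le_of_le tendsto_const_nhds h2
        (fun _ => zero_le) fun l => ?_
      exact le_trans (measure_mono (D_sub A l l₀)) (measure_union_le _ _)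
    have h4 : Tendsto (fun l => (volume (Dset A l ∆ Dset A l₀)).toReal) (𝓝 l₀) (𝓝 0) := by
      exact (ENNReal.tendsto_toReal ENNReal.zero_ne_top).comp h3
    rw [ContinuousAt, tendsto_iff_dist_tendsto_zero]
    refine squeeze_zero (fun _ => dist_nonneg) (fun l => ?_) h4
    rw [Real.dist_eq]
    exact abs_measureReal_sub_le_measureReal_symmDiff' (D_meas hA l).nullMeasurableSet
      (D_meas hA l₀).nullMeasurableSet (D_fin hAn l).ne (D_fin hAn l₀).ne
  · intro l hl
    have : Dset A l = ∅ := by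
      rw [eq_empty_iff_forall_notMem]
      rintro X ⟨h1, h2, _⟩
      obtain ⟨_, _, h3⟩ := hAn h2
      have h4 : ‖X.2‖ ≤ n := h3
      have h5 := abs_le_norm X.2
      have h6 := le_abs_self (X.2 0)
      linarith
    rw [this, measure_empty]

end VD
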